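import Pool.Agent.H93.SP.Targets

/-! Module SC: the spherical cycle of a loop is a cycle. -/

open Topology Set
open scoped unitInterval
open Pool.Agent.H59 Pool.Agent.H64.LB Pool.Agent.H93.SPB

namespace Pool.Agent.H81.SP

theorem cf_self {n : ℕ} (i : Fin (n + 1)) (t : Dl n) : (cf i t) i = 0 := by
  classical
  change FunOnFinite.linearMap ℝ ℝ (Fin.succAbove i) (t : Fin n → ℝ) i = 0
  rw [FunOnFinite.linearMap_apply_apply]
  apply Finset.sum_eq_zero
  intro j hj
  exact absurd (Finset.mem_filter.1 hj).2 (Fin.succAbove_ne i j)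

theorem cf_succAbove {n : ℕ} (i : Fin (n + 1)) (t : Dl n) (j : Fin n) :
    (cf i t) (i.succAbove j) = t j := by
  classical
  change FunOnFinite.linearMap ℝ ℝ (Fin.succAbove i) (t : Fin n → ℝ) (i.succAbove j) = t j
  rw [FunOnFinite.linearMap_apply_apply]
  have : (Finset.univ.filter fun x : Fin n => i.succAbove x = i.succAbove j) = {j} := by
    ext x
    simp
  rw [this, Finset.sum_singleton]

theorem sc : T_SC := by
  intro X _ x k h hh p
  have h1 : ∀ i : Fin (k + 3),
      fc (p.1.comp (h : C(Dl (k + 3), Fin (k + 2) → I))) i = ContinuousMap.const _ x := by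
    intro i
    ext t
    change p.1 (h (cf i t)) = x
    exact p.2 _ ((hh _).1 ⟨i, cf_self i t⟩)
  have h2 : ∀ i : Fin (k + 3),
      fc (ContinuousMap.const (Dl (k + 3)) x) i = ContinuousMap.const _ x := by
    intro i
    ext t
    rfl
  unfold sphc
  rw [map_sub, bd_single, bd_single]
  simp only [h1, h2, sub_self]

end Pool.Agent.H81.SP
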