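import Pool.Agent.H93.SP.Targets
import Pool.Agent.H81.SP.SC

/-! Module D2: simplices with the same faces except the last one have homotopic last faces. -/

open Topology Set
open scoped unitInterval
open Pool.Agent.H59 Pool.Agent.H64.LB Pool.Agent.H93.SPB

namespace Pool.Agent.H81.SP

/-- a point of the simplex with a zero coordinate is on a face -/
theorem exists_cf {n : ℕ} (i : Fin (n + 1)) (x : Dl (n + 1)) (h : x i = 0) :
    ∃ y : Dl n, cf i y = x := by
  refine ⟨⟨fun j => x (i.succAbove j), fun j => x.2.1 _, ?_⟩, ?_⟩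
  · have h2 := x.2.2
    rw [Fin.sum_univ_succAbove _ i] at h2
    change x i + _ = 1 at h2
    rw [h, zero_add] at h2
    exact h2
  · apply stdSimplex.ext
    funext j
    rcases Fin.eq_self_or_eq_succAbove i j with rfl | ⟨l, rfl⟩
    · rw [cf_self, h]
    · rw [cf_succAbove]
      rfl

section

variable {k : ℕ}

/-- the smallest coordinate -/
noncomputable def mn (t : Dl (k + 1)) : ℝ :=
  Finset.univ.inf' ⟨0, Finset.mem_univ _⟩ (fun j : Fin (k + 1) => t j)

theorem mn_le (t : Dl (k + 1)) (j : Fin (k + 1)) : mn t ≤ t j :=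
  Finset.inf'_le _ (Finset.mem_univ j)

theorem mn_nonneg (t : Dl (k + 1)) : 0 ≤ mn t := by
  unfold mn
  rw [Finset.le_inf'_iff]
  intro j _
  exact t.2.1 j

theorem exists_mn (t : Dl (k + 1)) : ∃ j, mn t = t j := by
  obtain ⟨j, _, hj⟩ := Finset.exists_mem_eq_inf' (s := Finset.univ) ⟨(0 : Fin (k + 1)), Finset.mem_univ _⟩
    (fun j : Fin (k + 1) => t j)
  exact ⟨j, hj⟩

theorem continuous_mn : Continuous (mn : Dl (k + 1) → ℝ) := by
  unfold mn
  apply Continuous.finset_inf'_apply
  intro j _
  exact (continuous_apply j).comp continuous_subtype_val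

/-- coordinates of the deformation -/
noncomputable def phf (s : I) (t : Dl (k + 1)) : Fin (k + 2) → ℝ :=
  Fin.snoc (α := fun _ => ℝ) (fun j => t j - (s : ℝ) * mn t) (((k : ℝ) + 1) * ((s : ℝ) * mn t))

theorem phf_mem (s : I) (t : Dl (k + 1)) : phf s t ∈ stdSimplex ℝ (Fin (k + 2)) := by
  have hm := mn_nonneg t
  have hs0 : (0 : ℝ) ≤ s := s.2.1
  have hs1 : (s : ℝ) ≤ 1 := s.2.2
  constructor
  · intro j
    refine Fin.lastCases ?_ (fun l => ?_) j
    · simp only [phf, Fin.snoc_last]
      positivity
    · simp only [phf, Fin.snoc_castSucc]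
      have := mn_le t l
      nlinarith
  · rw [Fin.sum_univ_castSucc]
    simp only [phf, Fin.snoc_last, Fin.snoc_castSucc]
    rw [Finset.sum_sub_distrib]
    have h2 : ∑ x, t x = 1 := t.2.2
    rw [h2]
    simp only [Finset.sum_const, Finset.card_univ, Fintype.card_fin, nsmul_eq_mul]
    push_cast
    ring

/-- the deformation -/
noncomputable def ph : C(I × Dl (k + 1), Dl (k + 2)) :=
  ⟨fun z => ⟨phf z.1 z.2, phf_mem z.1 z.2⟩, by
    refine Continuous.subtype_mk ?_ _
    refine continuous_pi fun j => ?_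
    have hm : Continuous fun z : I × Dl (k + 1) => mn z.2 := continuous_mn.comp continuous_snd
    have hs : Continuous fun z : I × Dl (k + 1) => (z.1 : ℝ) :=
      continuous_subtype_val.comp continuous_fst
    refine Fin.lastCases ?_ (fun l => ?_) j
    · simp only [phf, Fin.snoc_last]
      exact continuous_const.mul (hs.mul hm)
    · simp only [phf, Fin.snoc_castSucc]
      exact (((continuous_apply l).comp continuous_subtype_val).comp continuous_snd).sub
        (hs.mul hm)⟩

theorem ph_castSucc (s : I) (t : Dl (k + 1)) (j : Fin (k + 1)) :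
    (ph (s, t)) j.castSucc = t j - (s : ℝ) * mn t := by
  change phf s t j.castSucc = _
  simp only [phf, Fin.snoc_castSucc]

theorem ph_last (s : I) (t : Dl (k + 1)) :
    (ph (s, t)) (Fin.last (k + 1)) = ((k : ℝ) + 1) * ((s : ℝ) * mn t) := by
  change phf s t (Fin.last (k + 1)) = _
  simp only [phf, Fin.snoc_last]

theorem ph_eq (s : I) (t : Dl (k + 1)) (h : (s : ℝ) * mn t = 0) :
    ph (s, t) = cf (Fin.last (k + 1)) t := by
  apply stdSimplex.ext
  funext j
  refine Fin.lastCases ?_ (fun l => ?_) j
  · rw [ph_last, h, cf_self]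
    ring
  · rw [ph_castSucc, h, sub_zero]
    have := cf_succAbove (Fin.last (k + 1)) t l
    rw [Fin.succAbove_last] at this
    exact this.symm

theorem homRel {M : Type} [TopologicalSpace M] (a : C(Dl (k + 2), M)) :
    (a.comp (cf (Fin.last (k + 1)))).HomotopicRel
      (a.comp ⟨fun t => ph (1, t), ph.continuous.comp (by fun_prop)⟩) {t | ∃ i, t i = 0} := by
  refine ⟨{ toFun := fun z => a (ph z)
            continuous_toFun := a.continuous.comp ph.continuous
            map_zero_left := ?_
            map_one_left := ?_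
            prop' := ?_ }⟩
  · intro t
    change a (ph (0, t)) = a (cf _ t)
    rw [ph_eq 0 t (by simp)]
  · intro t
    rfl
  · intro s t ht
    obtain ⟨i, hi⟩ := ht
    change a (ph (s, t)) = a (cf _ t)
    have h0 : mn t = 0 := le_antisymm ((mn_le t i).trans hi.le) (mn_nonneg t)
    rw [ph_eq s t (by rw [h0, mul_zero])]

end

theorem d2 : T_D2 := by
  intro M _ k a b hab
  have h1 := homRel a
  have h2 := homRel b
  have h3 : a.comp (⟨fun t => ph (1, t), ph.continuous.comp (by fun_prop)⟩ :
      C(Dl (k + 1), Dl (k + 2))) =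
      b.comp (⟨fun t => ph (1, t), ph.continuous.comp (by fun_prop)⟩ :
      C(Dl (k + 1), Dl (k + 2))) := by
    ext t
    change a (ph (1, t)) = b (ph (1, t))
    obtain ⟨j, hj⟩ := exists_mn t
    obtain ⟨y, hy⟩ := exists_cf j.castSucc (ph (1, t)) (by
      rw [ph_castSucc, hj]
      simp)
    rw [← hy]
    exact DFunLike.congr_fun (hab j) y
  rw [h3] at h1
  exact h1.trans h2.symm

end Pool.Agent.H81.SP
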