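import Pool.Agent.H81.SP.SUR3

/-! Module FIN: finiteness for the second symmetric product of the model. -/

open Topology Set
open scoped unitInterval
open Pool.Agent.H59 Pool.Agent.H64.LB Pool.Agent.H93.SPB

namespace Pool.Agent.H81.SP

theorem surj_of_retract {X Y : Type} [TopologicalSpace X] [TopologicalSpace Y] (f : C(X, Y))
    (g : C(Y, X)) (h : g.comp f = ContinuousMap.id X) (q : ℕ) :
    Function.Surjective (HH.map ℚ q g) := fun z =>
  ⟨HH.map ℚ q f z, by rw [← HH.map_comp, h, HH.map_id]⟩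

theorem fin_of_retract {X Y : Type} [TopologicalSpace X] [TopologicalSpace Y] (f : C(X, Y))
    (g : C(Y, X)) (h : g.comp f = ContinuousMap.id X) (q : ℕ)
    (hf : Module.Finite ℚ (HH ℚ q Y)) : Module.Finite ℚ (HH ℚ q X) :=
  Module.Finite.of_surjective (HH.map ℚ q g) (surj_of_retract f g h q)

theorem sub_of_retract {X Y : Type} [TopologicalSpace X] [TopologicalSpace Y] (f : C(X, Y))
    (g : C(Y, X)) (h : g.comp f = ContinuousMap.id X) (q : ℕ)
    (hf : Subsingleton (HH ℚ q Y)) : Subsingleton (HH ℚ q X) :=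
  (surj_of_retract f g h q).subsingleton

/-- there is exactly one singular simplex in a point -/
noncomputable instance uniqSmp (n : ℕ) : Unique (Smp n PUnit.{1}) :=
  ⟨⟨ContinuousMap.const _ PUnit.unit⟩, fun _ => by ext⟩

theorem fin_pt (q : ℕ) : Module.Finite ℚ (HH ℚ q PUnit.{1}) := by
  have h1 : Module.Finite ℚ (Ch ℚ (q + 1) PUnit.{1}) := by
    change Module.Finite ℚ (Smp (q + 1) PUnit.{1} →₀ ℚ)
    infer_instance
  have h2 : Module.Finite ℚ (ZZ ℚ q PUnit.{1}) := inferInstance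
  exact Module.Finite.of_surjective (HH.mk ℚ q PUnit.{1}) (HH.mk_surjective ℚ q)

theorem bd_pt (n : ℕ) (r : ℚ) :
    bd ℚ n PUnit.{1} (Finsupp.single default r) =
      if Even (n + 1) then 0 else Finsupp.single default r := by
  rw [bd_single]
  have h : ∀ i : Fin (n + 1), fc (default : Smp (n + 1) PUnit.{1}) i = default :=
    fun i => Subsingleton.elim _ _
  simp only [h]
  rw [← Finset.sum_smul, Fin.sum_neg_one_pow]
  split_ifs
  · simp
  · simp

theorem zero_pt (q : ℕ) (hq : 1 ≤ q) : Subsingleton (HH ℚ q PUnit.{1}) := by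
  obtain ⟨k, rfl⟩ : ∃ k, q = k + 1 := ⟨q - 1, by omega⟩
  refine subsingleton_of_forall_eq 0 fun z => ?_
  induction z using HH.ind with
  | h x =>
    rw [HH.mk_eq_zero_iff]
    have hx := x.2
    rw [mem_ZZ_succ] at hx
    have e : (x.1 : Smp (k + 2) PUnit.{1} →₀ ℚ) = Finsupp.single default (x.1 default) :=
      Finsupp.unique_single _
    rw [e, bd_pt] at hx
    by_cases hk : Even (k + 1 + 1)
    · refine ⟨Finsupp.single default (x.1 default), ?_⟩
      rw [bd_pt, if_neg (by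
        rw [Nat.even_add_one]
        exact not_not.2 hk)]
      exact e.symm
    · rw [if_neg hk] at hx
      refine ⟨0, ?_⟩
      rw [map_zero, e]
      have : (x.1 default : ℚ) = 0 := by
        have := DFunLike.congr_fun hx default
        simpa using this
      rw [this]
      exact (Finsupp.single_zero _).symm

theorem fin (h1 : T_TRO) (h2 : T_KP) (h3 : T_SPAN) (h4 : T_AF) : T_FIN := by
  obtain ⟨v, hv⟩ := gen h1 h2 h3 3 (by norm_num)
  -- the punctured space
  let f1 : C(AA 3, PUnit.{1} × AA 3) := ⟨fun w => (PUnit.unit, w), by fun_prop⟩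
  let g1 : C(PUnit.{1} × AA 3, AA 3) := ⟨fun w => w.2, by fun_prop⟩
  have e1 : g1.comp f1 = ContinuousMap.id (AA 3) := rfl
  have fA : ∀ q, Module.Finite ℚ (HH ℚ q (AA 3)) := fun q =>
    fin_of_retract f1 g1 e1 q ((h4 PUnit.{1}).1 fin_pt 3 q)
  have zA : ∀ q ≥ 4, Subsingleton (HH ℚ q (AA 3)) := fun q hq =>
    sub_of_retract f1 g1 e1 q ((h4 PUnit.{1}).2 1 zero_pt 3 q (by omega))
  have fB : ∀ q, Module.Finite ℚ (HH ℚ q (Fin 2 → AA 3)) := fun q =>
    fin_of_retract (rp2 (AA 3)) (pr2 (AA 3)) (pr2_rp2 _) q ((h4 (AA 3)).1 fA 3 q)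
  have zB : ∀ q ≥ 7, Subsingleton (HH ℚ q (Fin 2 → AA 3)) := fun q hq =>
    sub_of_retract (rp2 (AA 3)) (pr2 (AA 3)) (pr2_rp2 _) q ((h4 (AA 3)).2 4 zA 3 q (by omega))
  let S : ∀ q, ((Fin 2 → Fin 2) → HH ℚ q (Fin 2 → AA 3)) →ₗ[ℚ] HH ℚ q (SP 2 (OO 3)) := fun q =>
    ∑ c : Fin 2 → Fin 2, (HH.map ℚ q ((proj 2 (OO 3)).comp (vc v c))).comp (LinearMap.proj c)
  have hs : ∀ q, Function.Surjective (S q) := by
    intro q z
    obtain ⟨y, hy⟩ := hv 2 q z
    refine ⟨y, ?_⟩
    rw [hy]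
    change (∑ c : Fin 2 → Fin 2,
      (HH.map ℚ q ((proj 2 (OO 3)).comp (vc v c))).comp (LinearMap.proj c)) y = _
    rw [LinearMap.sum_apply]
    rfl
  constructor
  · intro q
    have := fB q
    exact Module.Finite.of_surjective (S q) (hs q)
  · intro q hq
    have := zB q hq
    exact (hs q).subsingleton

end Pool.Agent.H81.SP
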