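import Pool.Agent.H93.SP.Targets

/-! Module QH: a homeomorphism of the simplex with the cube carrying the boundary to the
boundary. -/

open Topology Set
open scoped unitInterval
open Pool.Agent.H59 Pool.Agent.H64.LB Pool.Agent.H93.SPB

namespace Pool.Agent.H81.SP

variable {k : ℕ}

/-- the corner simplex -/
def Ak (k : ℕ) : Set (Fin k → ℝ) := {x | (∀ i, 0 ≤ x i) ∧ ∑ i, x i ≤ 1}

/-- the cube -/
def Ck (k : ℕ) : Set (Fin k → ℝ) := Set.pi univ fun _ => Icc 0 1

theorem Ak_subset : Ak k ⊆ Ck k := by
  intro x hx i _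
  refine ⟨hx.1 i, ?_⟩
  exact (Finset.single_le_sum (f := x) (fun j _ => hx.1 j) (Finset.mem_univ i)).trans hx.2

theorem Ck_eq : Ck k = Icc 0 1 := by
  unfold Ck
  rw [Set.pi_univ_Icc]
  rfl

theorem bdd_Ck : Bornology.IsBounded (Ck k) := by
  rw [Ck_eq]
  exact Metric.isBounded_Icc 0 1

theorem closed_Ck : IsClosed (Ck k) := by
  rw [Ck_eq]
  exact isClosed_Icc

theorem closed_Ak : IsClosed (Ak k) := by
  have : Ak k = (⋂ i, {x | 0 ≤ x i}) ∩ {x | ∑ i, x i ≤ 1} := by
    ext x
    simp [Ak]
  rw [this]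
  refine IsClosed.inter (isClosed_iInter fun i => isClosed_le continuous_const
    (continuous_apply i)) (isClosed_le (by fun_prop) continuous_const)

theorem convex_Ck : Convex ℝ (Ck k) := by
  rw [Ck_eq]
  exact convex_Icc 0 1

theorem convex_Ak : Convex ℝ (Ak k) := by
  intro x hx y hy a b ha hb hab
  refine ⟨fun i => ?_, ?_⟩
  · have h1 := hx.1 i
    have h2 := hy.1 i
    simp only [Pi.add_apply, Pi.smul_apply, smul_eq_mul]
    positivity
  · simp only [Pi.add_apply, Pi.smul_apply, smul_eq_mul]
    rw [Finset.sum_add_distrib, ← Finset.mul_sum, ← Finset.mul_sum]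
    have h1 := mul_le_mul_of_nonneg_left hx.2 ha
    have h2 := mul_le_mul_of_nonneg_left hy.2 hb
    linarith

theorem interior_Ck : interior (Ck k) = {x | ∀ i, 0 < x i ∧ x i < 1} := by
  unfold Ck
  rw [interior_pi_set finite_univ]
  ext x
  simp [interior_Icc]

theorem interior_Ak : interior (Ak k) = {x | (∀ i, 0 < x i) ∧ ∑ i, x i < 1} := by
  apply Subset.antisymm
  · intro x hx
    have hA : x ∈ Ak k := interior_subset hx
    rw [mem_interior_iff_mem_nhds] at hx
    constructor
    · intro i
      have hc : ContinuousAt (fun s : ℝ => x - s • Pi.single i (1 : ℝ)) 0 := by fun_prop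
      have h0 : x - (0 : ℝ) • Pi.single i (1 : ℝ) = x := by simp
      have h1 : ∀ᶠ s in 𝓝 (0 : ℝ), x - s • Pi.single i (1 : ℝ) ∈ Ak k :=
        hc.eventually_mem (by rw [h0]; exact hx)
      obtain ⟨s, hs, hs0⟩ := ((h1.filter_mono nhdsWithin_le_nhds).and
        (self_mem_nhdsWithin (s := Ioi (0 : ℝ)))).exists
      have h2 := hs.1 i
      simp only [Pi.sub_apply, Pi.smul_apply, Pi.single_eq_same, smul_eq_mul, mul_one] at h2
      have h3 : (0 : ℝ) < s := hs0
      linarith
    · refine lt_of_le_of_ne hA.2 fun hne => ?_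
      have hc : ContinuousAt (fun s : ℝ => (1 + s) • x) 0 := by fun_prop
      have h1 : ∀ᶠ s in 𝓝 (0 : ℝ), (1 + s) • x ∈ Ak k :=
        hc.eventually_mem (by simpa using hx)
      obtain ⟨s, hs, hs0⟩ := ((h1.filter_mono nhdsWithin_le_nhds).and
        (self_mem_nhdsWithin (s := Ioi (0 : ℝ)))).exists
      have h2 := hs.2
      simp only [Pi.smul_apply, smul_eq_mul] at h2
      rw [← Finset.mul_sum, hne] at h2
      have h3 : (0 : ℝ) < s := hs0
      linarith
  · apply interior_maximal
    · intro x hx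
      exact ⟨fun i => (hx.1 i).le, hx.2.le⟩
    · have : {x : Fin k → ℝ | (∀ i, 0 < x i) ∧ ∑ i, x i < 1} =
          (⋂ i, {x | 0 < x i}) ∩ {x | ∑ i, x i < 1} := by
        ext x
        simp
      rw [this]
      exact IsOpen.inter (isOpen_iInter_of_finite fun i => isOpen_lt continuous_const
        (continuous_apply i)) (isOpen_lt (by fun_prop) continuous_const)

/-- the homeomorphism of the ambient space -/
theorem exists_e (k : ℕ) : ∃ e : (Fin k → ℝ) ≃ₜ (Fin k → ℝ),
    e '' interior (Ak k) = interior (Ck k) ∧ e '' Ak k = Ck k := by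
  obtain ⟨e, h1, h2, _⟩ := exists_homeomorph_image_eq (convex_Ak (k := k))
    (by
      rw [interior_Ak]
      refine ⟨fun _ => 1 / ((k : ℝ) + 1), fun i => by positivity, ?_⟩
      simp only [Finset.sum_const, Finset.card_univ, Fintype.card_fin, nsmul_eq_mul]
      rw [mul_one_div, div_lt_one (by positivity)]
      linarith)
    (NormedSpace.isVonNBounded_of_isBounded ℝ (bdd_Ck.subset Ak_subset)) (convex_Ck (k := k))
    (by
      rw [interior_Ck]
      exact ⟨fun _ => 1 / 2, fun i => by norm_num⟩)
    (NormedSpace.isVonNBounded_of_isBounded ℝ bdd_Ck)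
  rw [closed_Ak.closure_eq, closed_Ck.closure_eq] at h2
  exact ⟨e, h1, h2⟩

/-- the simplex and the corner simplex -/
noncomputable def hA (k : ℕ) : Dl (k + 1) ≃ₜ Ak k where
  toFun t := ⟨fun i => t i.castSucc, fun i => t.2.1 _, by
    have h := t.2.2
    rw [Fin.sum_univ_castSucc] at h
    have h1 := t.2.1 (Fin.last k)
    change ∑ i : Fin k, t.1 i.castSucc ≤ 1
    linarith⟩
  invFun x := ⟨Fin.snoc (α := fun _ => ℝ) x.1 (1 - ∑ i, x.1 i), by
    constructor
    · intro j
      refine Fin.lastCases ?_ (fun l => ?_) j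
      · simp only [Fin.snoc_last]
        have := x.2.2
        linarith
      · simp only [Fin.snoc_castSucc]
        exact x.2.1 l
    · rw [Fin.sum_univ_castSucc]
      simp⟩
  left_inv t := by
    apply stdSimplex.ext
    funext j
    have h := t.2.2
    rw [Fin.sum_univ_castSucc] at h
    change (Fin.snoc (α := fun _ => ℝ) (fun i : Fin k => t.1 i.castSucc)
      (1 - ∑ i : Fin k, t.1 i.castSucc) : Fin (k + 1) → ℝ) j = t.1 j
    refine Fin.lastCases ?_ (fun l => ?_) j
    · simp only [Fin.snoc_last]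
      linarith
    · simp only [Fin.snoc_castSucc]
  right_inv x := by
    apply Subtype.ext
    funext i
    change (Fin.snoc (α := fun _ => ℝ) x.1 (1 - ∑ i, x.1 i) : Fin (k + 1) → ℝ) i.castSucc = x.1 i
    simp only [Fin.snoc_castSucc]
  continuous_toFun := by
    refine Continuous.subtype_mk (continuous_pi fun i => ?_) _
    exact (continuous_apply i.castSucc).comp continuous_subtype_val
  continuous_invFun := by
    refine Continuous.subtype_mk (continuous_pi fun j => ?_) _
    refine Fin.lastCases ?_ (fun l => ?_) j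
    · simp only [Fin.snoc_last]
      fun_prop
    · simp only [Fin.snoc_castSucc]
      exact (continuous_apply l).comp continuous_subtype_val

/-- the two forms of the cube -/
noncomputable def hC (k : ℕ) : Ck k ≃ₜ (Fin k → I) where
  toFun y i := ⟨y.1 i, y.2 i (mem_univ i)⟩
  invFun y := ⟨fun i => (y i : ℝ), fun i _ => (y i).2⟩
  left_inv y := rfl
  right_inv y := rfl
  continuous_toFun := by
    refine continuous_pi fun i => Continuous.subtype_mk ?_ _
    exact (continuous_apply i).comp continuous_subtype_val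
  continuous_invFun := by
    refine Continuous.subtype_mk (continuous_pi fun i => ?_) _
    exact continuous_subtype_val.comp (continuous_apply i)

theorem qh : T_QH := by
  intro k
  obtain ⟨e, h1, h2⟩ := exists_e k
  refine ⟨((hA k).trans ((e.image (Ak k)).trans (Homeomorph.setCongr h2))).trans (hC k), ?_⟩
  intro t
  set x : Fin k → ℝ := (hA k t : Fin k → ℝ) with hx
  have e1 : (∃ i, t i = 0) ↔ x ∉ interior (Ak k) := by
    rw [interior_Ak]
    have hsum : t (Fin.last k) = 1 - ∑ i, x i := by
      have h := t.2.2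
      rw [Fin.sum_univ_castSucc] at h
      change t.1 (Fin.last k) = 1 - ∑ i : Fin k, t.1 i.castSucc
      linarith
    have hxA : x ∈ Ak k := (hA k t).2
    constructor
    · rintro ⟨i, hi⟩ hh
      revert hi
      refine Fin.lastCases ?_ (fun l => ?_) i
      · intro hi
        rw [hsum] at hi
        have := hh.2
        linarith
      · intro hi
        have := hh.1 l
        change 0 < t l.castSucc at this
        rw [hi] at this
        exact lt_irrefl _ this
    · intro hh
      by_contra hne
      push Not at hne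
      apply hh
      refine ⟨fun i => lt_of_le_of_ne (hxA.1 i) (fun h => hne i.castSucc h.symm), ?_⟩
      refine lt_of_le_of_ne hxA.2 fun h => hne (Fin.last k) ?_
      rw [hsum, h]
      ring
  have e2 : x ∈ interior (Ak k) ↔ e x ∈ interior (Ck k) := by
    rw [← h1]
    exact (e.injective.mem_set_image).symm
  rw [e1, e2, interior_Ck]
  have hC' : e x ∈ Ck k := by
    rw [← h2]
    exact ⟨x, (hA k t).2, rfl⟩
  change ¬ (∀ i, 0 < e x i ∧ e x i < 1) ↔
    ∃ i, (hC k ⟨e x, hC'⟩ i = 0 ∨ hC k ⟨e x, hC'⟩ i = 1)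
  rw [not_forall]
  refine exists_congr fun i => ?_
  have h3 := hC' i (mem_univ i)
  have h4 : (hC k ⟨e x, hC'⟩ i = 0) ↔ e x i = 0 := by
    rw [Subtype.ext_iff]
    rfl
  have h5 : (hC k ⟨e x, hC'⟩ i = 1) ↔ e x i = 1 := by
    rw [Subtype.ext_iff]
    rfl
  rw [h4, h5]
  constructor
  · intro h
    by_contra hne
    push Not at hne
    exact h ⟨lt_of_le_of_ne h3.1 (Ne.symm hne.1), lt_of_le_of_ne h3.2 hne.2⟩
  · rintro (h | h) ⟨h6, h7⟩
    · rw [h] at h6
      exact lt_irrefl _ h6
    · rw [h] at h7
      exact lt_irrefl _ h7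

end Pool.Agent.H81.SP
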