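import Pool.Agent.H81.SP.Common

/-! Module SUR: adding a point is surjective on homology for `N ≥ 2`. -/

open Topology Set
open scoped unitInterval
open Pool.Agent.H59 Pool.Agent.H64.LB Pool.Agent.H93.SPB

namespace Pool.Agent.H81.SP

section

variable {A : Type} [TopologicalSpace A] {n : ℕ}

/-- a tuple from its entries at `i`, at `j` and elsewhere -/
def hh (i j : Fin n) : C(({k : Fin n // k ≠ i ∧ k ≠ j} → A) × (A × A), Fin n → A) :=
  ⟨fun w k => if h : k = i then w.2.1 else if h' : k = j then w.2.2 else w.1 ⟨k, h, h'⟩, by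
    refine continuous_pi fun k => ?_
    by_cases h : k = i
    · simp only [h, dite_true]
      fun_prop
    · by_cases h' : k = j
      · simp only [h, h', dite_false, dite_true]
        simp only [h'] at h
        simp only [h, dite_false]
        fun_prop
      · simp only [h, h', dite_false]
        fun_prop⟩

theorem hh_i (i j : Fin n) (w : ({k : Fin n // k ≠ i ∧ k ≠ j} → A) × (A × A)) :
    hh i j w i = w.2.1 := by
  simp [hh]

theorem hh_j (i j : Fin n) (hij : j ≠ i) (w : ({k : Fin n // k ≠ i ∧ k ≠ j} → A) × (A × A)) :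
    hh i j w j = w.2.2 := by
  simp [hh, hij]

theorem hh_k (i j k : Fin n) (h : k ≠ i) (h' : k ≠ j)
    (w : ({k : Fin n // k ≠ i ∧ k ≠ j} → A) × (A × A)) :
    hh i j w k = w.1 ⟨k, h, h'⟩ := by
  simp [hh, h, h']

/-- the inverse map -/
def gg (i j : Fin n) : C(Fin n → A, ({k : Fin n // k ≠ i ∧ k ≠ j} → A) × (A × A)) :=
  ⟨fun w => (fun k => w k.1, (w i, w j)), by fun_prop⟩

theorem hh_gg (i j : Fin n) : (hh i j).comp (gg i j) = ContinuousMap.id (Fin n → A) := by
  ext w k
  change hh i j (gg i j w) k = w k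
  by_cases h : k = i
  · subst h
    rw [hh_i]
    rfl
  · by_cases h' : k = j
    · subst h'
      rw [hh_j _ _ h]
      rfl
    · rw [hh_k _ _ _ h h']
      rfl

end

/-- a base point -/
noncomputable def a0 (n : ℕ) : AA n := ⟨(0, 1), by
  intro h
  have := congrArg Prod.snd h
  simp at this⟩

theorem sur (h1 : T_TRO) (h2 : T_KP) (h3 : T_SPAN) (h4 : T_SW) (h5 : T_ADD) (h6 : T_PC)
    (h7 : T_HI) : T_SUR := by
  intro y0 N q hN z
  haveI : PathConnectedSpace (OO 3) := h6
  obtain ⟨v, hv⟩ := gen h1 h2 h3 3 (by norm_num)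
  obtain ⟨y, hy⟩ := hv (N + 1) q z
  suffices hz : z ∈ LinearMap.range (HH.map ℚ q (spInc y0 N)) from hz
  rw [hy]
  refine Submodule.sum_mem _ fun c _ => ?_
  obtain ⟨i, j, hij, hc⟩ := Fintype.exists_ne_map_eq_of_card_lt c (by simp; omega)
  set F : C(Fin (N + 1) → AA 3, SP (N + 1) (OO 3)) := (proj (N + 1) (OO 3)).comp (vc v c) with hF
  set G := F.comp (hh (A := AA 3) i j) with hG
  obtain ⟨x, hx⟩ : ∃ x, x = HH.map ℚ q (gg (A := AA 3) i j) (y c) := ⟨_, rfl⟩
  have hGx : HH.map ℚ q G x = HH.map ℚ q F (y c) := by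
    rw [hG, hx, ← HH.map_comp, ContinuousMap.comp_assoc, hh_gg, ContinuousMap.comp_id]
  let sw : C(({k : Fin (N + 1) // k ≠ i ∧ k ≠ j} → AA 3) × (AA 3 × AA 3),
      ({k : Fin (N + 1) // k ≠ i ∧ k ≠ j} → AA 3) × (AA 3 × AA 3)) :=
    ⟨fun w => (w.1, (w.2.2, w.2.1)), by fun_prop⟩
  have hsw : G.comp sw = G := by
    ext w
    change proj (N + 1) (OO 3) (vc v c (hh i j (sw w))) =
      proj (N + 1) (OO 3) (vc v c (hh i j w))
    rw [← proj_perm (Equiv.swap i j) (vc v c (hh i j w))]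
    congr 1
    funext k
    simp only [Function.comp, vc_apply]
    by_cases h : k = i
    · subst h
      rw [Equiv.swap_apply_left, hh_i, hh_j _ _ hij.symm, hc]
      rfl
    · by_cases h' : k = j
      · subst h'
        rw [Equiv.swap_apply_right, hh_i, hh_j _ _ h, hc]
        rfl
      · rw [Equiv.swap_apply_of_ne_of_ne h h', hh_k _ _ _ h h', hh_k _ _ _ h h']
        rfl
  obtain ⟨y1, y2, hyy⟩ := h4 ({k : Fin (N + 1) // k ≠ i ∧ k ≠ j} → AA 3) q (a0 3) x
  have h8 : HH.map ℚ q G x + HH.map ℚ q G x ∈ LinearMap.range (HH.map ℚ q (spInc y0 N)) := by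
    have e1 : HH.map ℚ q G x + HH.map ℚ q G x = HH.map ℚ q G (x + HH.map ℚ q sw x) := by
      rw [map_add, ← HH.map_comp, hsw]
    rw [e1]
    have e2 := congrArg (HH.map ℚ q G) hyy
    change HH.map ℚ q G (x + HH.map ℚ q sw x) = _ at e2
    rw [e2, map_add, ← HH.map_comp, ← HH.map_comp]
    refine Submodule.add_mem _ ?_ ?_
    · refine range_of_const h5 h7 y0 N q j (v (c j) (a0 3)) ((vc v c).comp ((hh i j).comp
        ⟨fun w : ({k : Fin (N + 1) // k ≠ i ∧ k ≠ j} → AA 3) × AA 3 => (w.1, (w.2, a0 3)),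
          by fun_prop⟩)) (fun t => ?_) y1
      change v (c j) (hh i j _ j) = _
      rw [hh_j _ _ hij.symm]
      rfl
    · refine range_of_const h5 h7 y0 N q i (v (c i) (a0 3)) ((vc v c).comp ((hh i j).comp
        ⟨fun w : ({k : Fin (N + 1) // k ≠ i ∧ k ≠ j} → AA 3) × AA 3 => (w.1, (a0 3, w.2)),
          by fun_prop⟩)) (fun t => ?_) y2
      change v (c i) (hh i j _ i) = _
      rw [hh_i]
      rfl
  rw [← hGx]
  have h9 := Submodule.smul_mem _ (1 / 2 : ℚ) h8
  rw [← two_smul ℚ, smul_smul] at h9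
  norm_num at h9
  exact h9

end Pool.Agent.H81.SP
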