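import Pool.Agent.H81.SP.Common

/-! Module SUR3: `SP 1 → SP 2` is surjective on `H_3`. -/

open Topology Set
open scoped unitInterval
open Pool.Agent.H59 Pool.Agent.H64.LB Pool.Agent.H93.SPB

namespace Pool.Agent.H81.SP

/-- pairs as functions on `Fin 2` -/
def pr2 (A : Type) [TopologicalSpace A] : C(A × A, Fin 2 → A) :=
  ⟨fun w => ![w.1, w.2], by fun_prop⟩

/-- functions on `Fin 2` as pairs -/
def rp2 (A : Type) [TopologicalSpace A] : C(Fin 2 → A, A × A) :=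
  ⟨fun w => (w 0, w 1), by fun_prop⟩

theorem pr2_rp2 (A : Type) [TopologicalSpace A] :
    (pr2 A).comp (rp2 A) = ContinuousMap.id (Fin 2 → A) := by
  ext w k
  change (![w 0, w 1] : Fin 2 → A) k = w k
  fin_cases k <;> rfl

theorem rp2_pr2 (A : Type) [TopologicalSpace A] :
    (rp2 A).comp (pr2 A) = ContinuousMap.id (A × A) := by
  ext w <;> rfl

/-- a base point -/
noncomputable def a00 (n : ℕ) : AA n := ⟨(0, 1), by
  intro h
  have := congrArg Prod.snd h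
  simp at this⟩

theorem sur3 (h1 : T_TRO) (h2 : T_KP) (h3 : T_SPAN) (h4 : T_AX) (h5 : T_ADD) (h6 : T_PC)
    (h7 : T_HI) : T_SUR3 := by
  intro y0 z
  haveI : PathConnectedSpace (OO 3) := h6
  obtain ⟨v, hv⟩ := gen h1 h2 h3 3 (by norm_num)
  obtain ⟨y, hy⟩ := hv 2 3 z
  suffices hz : z ∈ LinearMap.range (HH.map ℚ 3 (spInc y0 1)) from hz
  rw [hy]
  refine Submodule.sum_mem _ fun c _ => ?_
  obtain ⟨y1, y2, hyy⟩ := h4 (a00 3) (HH.map ℚ 3 (rp2 (AA 3)) (y c))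
  have e0 : HH.map ℚ 3 (pr2 (AA 3)) (HH.map ℚ 3 (rp2 (AA 3)) (y c)) = y c := by
    rw [← HH.map_comp, pr2_rp2, HH.map_id]
  rw [← e0, hyy, map_add, map_add, ← HH.map_comp, ← HH.map_comp, ← HH.map_comp, ← HH.map_comp]
  refine Submodule.add_mem _ ?_ ?_
  · exact range_of_const h5 h7 y0 1 3 1 (v (c 1) (a00 3)) ((vc v c).comp ((pr2 (AA 3)).comp
        ⟨fun w : AA 3 => (w, a00 3), by fun_prop⟩)) (fun t => rfl) y1
  · exact range_of_const h5 h7 y0 1 3 0 (v (c 0) (a00 3)) ((vc v c).comp ((pr2 (AA 3)).comp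
        ⟨fun w : AA 3 => (a00 3, w), by fun_prop⟩)) (fun t => rfl) y2

end Pool.Agent.H81.SP
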