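import Pool.Agent.H93.SP.Targets

/-! Common lemmas for the modules SUR, SUR3, FIN. -/

open Topology Set
open scoped unitInterval
open Pool.Agent.H59 Pool.Agent.H64.LB Pool.Agent.H93.SPB

namespace Pool.Agent.H81.SP

section general

variable {Y : Type} [TopologicalSpace Y]

/-- moving the `j`-th entry to the last place -/
def mvPerm {N : ℕ} (j : Fin (N + 1)) : Equiv.Perm (Fin (N + 1)) :=
  (finSuccEquiv' (Fin.last N)).trans (finSuccEquiv' j).symm

theorem mvPerm_last {N : ℕ} (j : Fin (N + 1)) : mvPerm j (Fin.last N) = j := by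
  simp [mvPerm]

theorem mvPerm_castSucc {N : ℕ} (j : Fin (N + 1)) (i : Fin N) :
    mvPerm j i.castSucc = j.succAbove i := by
  have h : (i.castSucc : Fin (N + 1)) = (Fin.last N).succAbove i := by
    rw [Fin.succAbove_last]
  rw [h]
  simp only [mvPerm, Equiv.trans_apply, finSuccEquiv'_succAbove, finSuccEquiv'_symm_some]

theorem proj_eq_spInc {N : ℕ} (j : Fin (N + 1)) (w : Fin (N + 1) → Y) :
    proj (N + 1) Y w = spInc (w j) N (proj N Y (fun i => w (j.succAbove i))) := by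
  rw [spInc_proj]
  rw [proj_eq_iff]
  refine ⟨mvPerm j, ?_⟩
  funext i
  refine Fin.lastCases ?_ (fun l => ?_) i
  · simp [snocC, mvPerm_last]
  · simp [snocC, mvPerm_castSucc]

/-- a tuple with a constant entry -/
theorem proj_comp_eq {T : Type} [TopologicalSpace T] {N : ℕ} (j : Fin (N + 1)) (y1 : Y)
    (w : C(T, Fin (N + 1) → Y)) (h : ∀ t, w t j = y1) :
    (proj (N + 1) Y).comp w = (spInc y1 N).comp ((proj N Y).comp
      ⟨fun t i => w t (j.succAbove i), by fun_prop⟩) := by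
  ext t
  change proj (N + 1) Y (w t) = spInc y1 N (proj N Y _)
  rw [proj_eq_spInc j (w t), h t]
  rfl

theorem map_spInc_eq (hA : T_ADD) (hH : T_HI) [PathConnectedSpace Y] (y0 y1 : Y) (N q : ℕ) :
    HH.map ℚ q (spInc y1 N) = HH.map ℚ q (spInc y0 N) :=
  hH _ _ _ _ (hA Y y1 y0 (PathConnectedSpace.joined y1 y0) N) q

/-- the class of a family of tuples with a constant entry comes from the lower symmetric product -/
theorem range_of_const (hA : T_ADD) (hH : T_HI) [PathConnectedSpace Y] (y0 : Y) (N q : ℕ)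
    {T : Type} [TopologicalSpace T] (j : Fin (N + 1)) (y1 : Y)
    (w : C(T, Fin (N + 1) → Y)) (h : ∀ t, w t j = y1) (x : HH ℚ q T) :
    HH.map ℚ q ((proj (N + 1) Y).comp w) x ∈ LinearMap.range (HH.map ℚ q (spInc y0 N)) := by
  rw [proj_comp_eq j y1 w h, HH.map_comp, map_spInc_eq hA hH y0 y1]
  exact ⟨_, rfl⟩

end general

/-- the map `w ↦ (i ↦ v (c i) (w i))` -/
def vc {A B : Type} [TopologicalSpace A] [TopologicalSpace B] {n m : ℕ} (v : Fin m → C(A, B))
    (c : Fin n → Fin m) : C(Fin n → A, Fin n → B) :=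
  ⟨fun w i => v (c i) (w i), by fun_prop⟩

@[simp] theorem vc_apply {A B : Type} [TopologicalSpace A] [TopologicalSpace B] {n m : ℕ}
    (v : Fin m → C(A, B)) (c : Fin n → Fin m) (w : Fin n → A) (i : Fin n) :
    vc v c w i = v (c i) (w i) := rfl

/-- generation of the homology of the symmetric products of the model -/
theorem gen (h1 : T_TRO) (h2 : T_KP) (h3 : T_SPAN) (d : ℕ) (hd : 1 ≤ d) :
    ∃ v : Fin 2 → C(AA d, OO d), ∀ (n q : ℕ) (z : HH ℚ q (SP n (OO d))),
      ∃ y : (Fin n → Fin 2) → HH ℚ q (Fin n → AA d),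
        z = ∑ c, HH.map ℚ q ((proj n (OO d)).comp (vc v c)) (y c) := by
  obtain ⟨v, hv⟩ := h2 d hd
  refine ⟨v, fun n q z => ?_⟩
  obtain ⟨x, hx⟩ := (h1 d n q).1 z
  obtain ⟨y, hy⟩ := h3 (OO d) (AA d) 2 v hv n q x
  refine ⟨y, ?_⟩
  rw [← hx, hy, map_sum]
  refine Finset.sum_congr rfl fun c _ => ?_
  rw [HH.map_comp]
  rfl

end Pool.Agent.H81.SP
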